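import Pool.Agent.Run7.h277.WF.Main

/-!
# Fujita's freeness conjecture for weighted complete intersections with pairwise coprime weights

Let `X = V(f_1, ..., f_c)` be a complete intersection of degrees `d_1, ..., d_c` and dimension `n`
in the weighted projective space `P(a_0, ..., a_{n+c})` over `ℂ`, with pairwise coprime weights,
on which `O(1)` is invertible (`hgcd`: the torus action has trivial stabilisers at all points of
the cone over `X`, in other words `X` does not contain a point `(0, ..., 1, ..., 0)` with
`a_i > 1`). Then `K_X = O(∑ d_j - ∑ a_i)`, and for `A = O(k)`, `k ≥ 1`, and `m ≥ n + 1` the bundle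
`K_X + m A = O(e)` is globally generated: `e ≥ 0`, and for each point of `X` there is a form of
weighted degree `e` which does not vanish there. The codimension `c` is arbitrary, and `X` need
not be smooth, nor even a complete intersection.

The proof. One has to show that `e` lies in the semigroup generated by the weights `a_i` of the
nonzero coordinates of the point. A pure power of each `x_i` with `a_i > 1` appears in some `f_j`,
`j = J(i)`. As the product of the `a_i` with `J(i) = j` divides `d_j`, the hypothesis
`e ≥ ∑ d_j - ∑ a_i + n + 1` says that `e ≥ ∑ ε_j`, where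
`ε_j = d_j - 1 - ∑_{J(i) = j} (a_i - 1) ≥ 0`. If two nonzero coordinates `x_i`, `x_l` have the same
`J`, then `e ≥ (a_i - 1)(a_l - 1)` is in the semigroup generated by `a_i` and `a_l`. If not, then,
as `f_{J(i)}` vanishes at the point, it contains besides the power of `x_i` a second monomial in
the nonzero coordinates, and the relations between the weights obtained in this way bound the
Frobenius number of the semigroup (`Pool.Agent.Run7.h277.WF.chip`,
`Pool.Agent.Run7.h277.WF.core`), by an argument with chip firing on the directed graph of these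
relations.
-/

set_option autoImplicit false

namespace Pool.Agent.Results.MP_9ff3e7_ag.CoprimeWeightedFreeness

open MvPolynomial

/-- Fujita's freeness conjecture for all weighted complete intersections with pairwise coprime
weights, on which `O(1)` is invertible, and `A = O(k)`. -/
theorem result (n c : ℕ) (a : Fin (n + c + 1) → ℕ) (ha : ∀ i, 0 < a i)
    (hcop : ∀ i i', i ≠ i' → Nat.Coprime (a i) (a i')) (d : Fin c → ℕ) (hd : ∀ j, 0 < d j)
    (f : Fin c → MvPolynomial (Fin (n + c + 1)) ℂ) (hf : ∀ j, IsWeightedHomogeneous a (f j) (d j))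
    (hgcd : ∀ v : Fin (n + c + 1) → ℂ, v ≠ 0 → (∀ j, eval v (f j) = 0) →
      ∀ g : ℕ, (∀ i, v i ≠ 0 → g ∣ a i) → g = 1)
    (k m : ℕ) (hk : 1 ≤ k) (hm : n + 1 ≤ m) :
    ∃ e : ℕ, (e : ℤ) = ∑ j, (d j : ℤ) - ∑ i, (a i : ℤ) + m * k ∧
      ∀ v : Fin (n + c + 1) → ℂ, v ≠ 0 → (∀ j, eval v (f j) = 0) →
        ∃ s : MvPolynomial (Fin (n + c + 1)) ℂ, IsWeightedHomogeneous a s e ∧ eval v s ≠ 0 := by
  classical
  have hX : ∀ i, 2 ≤ a i → ∃ j, eval (Pi.single i 1 : Fin (n + c + 1) → ℂ) (f j) ≠ 0 := by
    intro i hi
    by_contra hcon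
    push Not at hcon
    have h1 := hgcd (Pi.single i 1) (by
      intro h
      have := congrFun h i
      simp at this) hcon (a i) (by
      intro l hl
      by_cases hli : l = i
      · rw [hli]
      · exact absurd (Pi.single_eq_of_ne hli 1) hl)
    omega
  have hmk : ((n : ℤ) + 1) ≤ m * k := by
    have h1 : n + 1 ≤ m * k := by nlinarith
    exact_mod_cast h1
  obtain ⟨he0, hmain⟩ := Pool.Agent.Run7.h277.WF.main a ha hcop d hd f hf hX
    (∑ j, (d j : ℤ) - ∑ i, (a i : ℤ) + m * k) (by
      rw [Finset.sum_sub_distrib, Finset.sum_sub_distrib]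
      simp
      linarith)
  obtain ⟨e, he⟩ := Int.eq_ofNat_of_zero_le he0
  refine ⟨e, he.symm, fun v hv hvf => ?_⟩
  obtain ⟨y, hyv, hy⟩ := hmain v hv hvf
  rw [he] at hy
  refine ⟨monomial (Finsupp.equivFunOnFinite.symm y) 1, ?_, ?_⟩
  · refine isWeightedHomogeneous_monomial a _ _ ?_
    rw [Finsupp.weight_apply, Finsupp.sum_fintype _ _ (fun i => by simp)]
    have h2 : ∑ i, y i * a i = e := by exact_mod_cast hy
    simpa using h2
  · rw [eval_monomial, one_mul, Finsupp.prod_fintype _ _ (fun i => by simp)]
    refine Finset.prod_ne_zero_iff.2 fun i _ => ?_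
    by_cases hi : y i = 0
    · simp [hi]
    · exact pow_ne_zero _ (hyv i hi)

end Pool.Agent.Results.MP_9ff3e7_ag.CoprimeWeightedFreeness
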